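import Pool.Agent.Helper40.Muk.Comb

/-!
# Arithmetic of the concentrated exponent vectors
-/

set_option autoImplicit false

open Finset

set_option linter.unusedSectionVars false
set_option linter.unusedSimpArgs false

namespace Pool.Agent.Helper40.Muk

lemma arith1 (A B Q So l : ℕ) (hB : 2 ≤ B) (hAB : B < A) (hQ : 2 ≤ Q) (hSo : So + 1 ≤ Q)
    (hl : A * B * Q ≤ l + 1 + (A - 1 + (B - 1) + So)) : (A - 1) * B ≤ l ∧ (B - 1) * A ≤ l := by
  obtain ⟨A', rfl⟩ : ∃ A', A = A' + 1 := ⟨A - 1, by omega⟩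
  obtain ⟨B', rfl⟩ : ∃ B', B = B' + 1 := ⟨B - 1, by omega⟩
  obtain ⟨Q', rfl⟩ : ∃ Q', Q = Q' + 2 := ⟨Q - 2, by omega⟩
  simp only [Nat.add_sub_cancel] at *
  have h1 : (A' + 1) * (B' + 1) * (Q' + 2) =
      (A' + 1) * (B' + 1) * Q' + 2 * ((A' + 1) * (B' + 1)) := by ring
  have h2 : Q' ≤ (A' + 1) * (B' + 1) * Q' := by
    nlinarith [Nat.zero_le (A' * B'), Nat.zero_le (A' * B' * Q'), Nat.zero_le (A' * Q'),
      Nat.zero_le (B' * Q')]
  have h3 : (A' + 1) * (B' + 1) = A' * (B' + 1) + B' + 1 := by ring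
  have h4 : (A' + 1) * (B' + 1) = B' * (A' + 1) + A' + 1 := by ring
  have h5 : A' * 2 ≤ A' * (B' + 1) := Nat.mul_le_mul_left _ hB
  constructor <;> omega

lemma arith2 (A B Q So M t b : ℤ) (hB : 2 ≤ B) (hAB : B < A) (hQ : 2 ≤ Q) (hSo : So + 1 ≤ Q)
    (hM : 2 * (A * B * Q) ≤ M + 1 + 2 * (A - 1 + (B - 1) + So))
    (htb : (t - 1) * (b - 1) ≤ (A - 1) * (B - 1)) :
    A * B * Q + t * (b - 2) + 1 + b * (t - 2) ≤ M := by
  have h1 : 0 ≤ (A * B - 2) * (Q - 2) := by
    apply mul_nonneg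
    · nlinarith
    · linarith
  nlinarith

lemma arith3 (A B Q So M : ℤ) (hSo0 : 0 ≤ So) (hB : 2 ≤ B) (hAB : B < A) (hQ : 2 ≤ Q)
    (hSo : So + 1 ≤ Q)
    (hM : 2 * (A * B * Q) ≤ M + 1 + 2 * (A - 1 + (B - 1) + So))
    (hM2 : M ≤ A * (B - 1) + B * (A - 1) + 2 * (A - 1) * So + (A - 2)) : False := by
  have h1 : 0 ≤ A * (Q - 1 - So) := mul_nonneg (by linarith) (by linarith)
  have h2 : 0 ≤ A * (B - 1) * (Q - 2) :=
    mul_nonneg (mul_nonneg (by linarith) (by linarith)) (by linarith)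
  have h3 : 0 ≤ A * (B - 2) := mul_nonneg (by linarith) (by linarith)
  have h4 : B ≤ 2 * (A * (B - 2)) + 2 := by nlinarith
  nlinarith

variable {ι : Type} [Fintype ι] [DecidableEq ι]

section General

variable (a : ι → ℕ) (x y : ι) (hxy : x ≠ y)

lemma sum_split (hxy : x ≠ y) (g : ι → ℕ) :
    ∑ i, g i = g x + (g y + ∑ i ∈ (univ.erase x).erase y, g i) := by
  rw [← Finset.add_sum_erase _ g (mem_univ x),
    ← Finset.add_sum_erase (univ.erase x) g (Finset.mem_erase.2 ⟨hxy.symm, mem_univ y⟩)]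

variable {a x y}

/-- The bound for the weights different from `a j`. -/
def bnd (a : ι → ℕ) (x y j : ι) : ℕ := if j = x then a y else a x

lemma le_bnd (hA : ∀ i, a i ≤ a x) (hB : ∀ i, i ≠ x → a i ≤ a y) (j k : ι) (hk : k ≠ j) :
    a k ≤ bnd a x y j := by
  unfold bnd
  split_ifs with h
  · subst h; exact hB k hk
  · exact hA k

lemma bnd_prod (hA : ∀ i, a i ≤ a x) (hB : ∀ i, i ≠ x → a i ≤ a y) (j : ι) :
    (a j - 1) * (bnd a x y j - 1) ≤ (a x - 1) * (a y - 1) := by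
  unfold bnd
  split_ifs with h
  · subst h; exact le_rfl
  · have := hB j h
    rw [mul_comm (a x - 1)]
    exact Nat.mul_le_mul_right _ (by omega)

variable {Q e l l' : ℕ}

lemma F1 (hxy : x ≠ y) (hB : ∀ i, i ≠ x → a i ≤ a y) (hB2 : 2 ≤ a y)
    (hlt : a y < a x) (hQ : 2 ≤ Q) (he : e = a x * a y * Q)
    (hSo : ∑ i ∈ (univ.erase x).erase y, (a i - 1) + 1 ≤ Q)
    (hl' : e ≤ l' + 1 + ∑ i, (a i - 1)) (j : ι) : (a j - 1) * bnd a x y j ≤ l' := by
  rw [sum_split x y hxy (fun i => a i - 1)] at hl'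
  have h := arith1 (a x) (a y) Q (∑ i ∈ (univ.erase x).erase y, (a i - 1)) l' hB2 hlt hQ hSo
    (by rw [← he]; omega)
  unfold bnd
  split_ifs with hj
  · subst hj; exact h.1
  · have h1 := hB j hj
    exact (Nat.mul_le_mul_right _ (by omega)).trans h.2

/-- Concentrated vectors have a large entry. -/
lemma F2 (hxy : x ≠ y) (ha : ∀ i, 1 ≤ a i) (hA : ∀ i, a i ≤ a x) (hB : ∀ i, i ≠ x → a i ≤ a y)
    (hB2 : 2 ≤ a y) (hlt : a y < a x) (hQ : 2 ≤ Q) (he : e = a x * a y * Q)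
    (hSo : ∑ i ∈ (univ.erase x).erase y, (a i - 1) + 1 ≤ Q)
    (hl : e ≤ l + ∑ i, (a i - 1)) (hl' : e ≤ l' + 1 + ∑ i, (a i - 1))
    (u : ι → ℕ) (hM : wt a u = l + l') (j : ι) (hj : 2 ≤ a j)
    (hc : ∑ k ∈ univ.erase j, u k + 2 ≤ a j) (s : ℕ) (hs : e = a j * s) :
    s ≤ u j ∧ bnd a x y j ≤ u j - s + 1 := by
  have hbn : 2 ≤ bnd a x y j := by
    unfold bnd; split_ifs <;> omega
  -- the weight of `u`
  have hw : wt a u ≤ a j * u j + bnd a x y j * (a j - 2) := by
    have h1 : wt a u = a j * u j + ∑ k ∈ univ.erase j, a k * u k := by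
      unfold wt
      rw [← Finset.add_sum_erase _ _ (mem_univ j)]
    have h2 : ∑ k ∈ univ.erase j, a k * u k ≤ bnd a x y j * ∑ k ∈ univ.erase j, u k := by
      rw [Finset.mul_sum]
      exact Finset.sum_le_sum fun k hk =>
        Nat.mul_le_mul_right _ (le_bnd hA hB j k (Finset.ne_of_mem_erase hk))
    have h3 : bnd a x y j * ∑ k ∈ univ.erase j, u k ≤ bnd a x y j * (a j - 2) :=
      Nat.mul_le_mul_left _ (by omega)
    omega
  have hbp := bnd_prod hA hB j
  rw [sum_split x y hxy (fun i => a i - 1)] at hl hl'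
  set So := ∑ i ∈ (univ.erase x).erase y, (a i - 1) with hSodef
  set b := bnd a x y j with hb
  have hZ := arith2 (a x) (a y) Q So (l + l' : ℕ) (a j) b (by exact_mod_cast hB2)
    (by exact_mod_cast hlt) (by exact_mod_cast hQ) (by exact_mod_cast hSo)
    (by
      have h1 : 2 * (a x * a y * Q) ≤ l + l' + 1 + 2 * (a x - 1 + (a y - 1 + So)) := by
        rw [← he]; omega
      have h2 : ((a x - 1 : ℕ) : ℤ) = (a x : ℤ) - 1 := by
        rw [Nat.cast_sub (by omega)]; simp
      have h3 : ((a y - 1 : ℕ) : ℤ) = (a y : ℤ) - 1 := by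
        rw [Nat.cast_sub (by omega)]; simp
      have h4 : ((2 * (a x * a y * Q) : ℕ) : ℤ) ≤
        ((l + l' + 1 + 2 * (a x - 1 + (a y - 1 + So)) : ℕ) : ℤ) := by exact_mod_cast h1
      push_cast at h4 ⊢
      rw [h2, h3] at h4
      linarith)
    (by
      have h2 : ((a x - 1 : ℕ) : ℤ) = (a x : ℤ) - 1 := by
        rw [Nat.cast_sub (by omega)]; simp
      have h3 : ((a y - 1 : ℕ) : ℤ) = (a y : ℤ) - 1 := by
        rw [Nat.cast_sub (by omega)]; simp
      have h5 : ((a j - 1 : ℕ) : ℤ) = (a j : ℤ) - 1 := by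
        rw [Nat.cast_sub (by omega)]; simp
      have h6 : ((b - 1 : ℕ) : ℤ) = (b : ℤ) - 1 := by
        rw [Nat.cast_sub (by omega)]; simp
      rw [← h2, ← h3, ← h5, ← h6]
      exact_mod_cast hbp)
  have hM' : ((l + l' : ℕ) : ℤ) ≤ (a j : ℤ) * u j + b * ((a j : ℤ) - 2) := by
    rw [← hM]
    have h7 : ((a j - 2 : ℕ) : ℤ) = (a j : ℤ) - 2 := by
      rw [Nat.cast_sub (by omega)]; simp
    rw [← h7]
    exact_mod_cast hw
  have hes : (a x : ℤ) * a y * Q = a j * s := by
    have : a x * a y * Q = a j * s := by rw [← he, hs]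
    exact_mod_cast this
  have hfin : (a j : ℤ) * (s + (b - 2)) < a j * u j := by
    rw [hes] at hZ
    nlinarith
  have hajpos : (0 : ℤ) < a j := by exact_mod_cast (by omega : 0 < a j)
  have h8 : (s : ℤ) + (b - 2) < u j := lt_of_mul_lt_mul_left hfin hajpos.le
  have hb' : (2 : ℤ) ≤ b := by exact_mod_cast hbn
  constructor
  · have : (s : ℤ) ≤ u j := by linarith
    exact_mod_cast this
  · omega

/-- Vectors which are not concentrated split. -/
lemma F3 (hxy : x ≠ y) (ha : ∀ i, 1 ≤ a i) (hcop : ∀ i j, i ≠ j → (a i).Coprime (a j))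
    (hA : ∀ i, a i ≤ a x) (hB : ∀ i, i ≠ x → a i ≤ a y)
    (hB2 : 2 ≤ a y) (hlt : a y < a x) (hQ : 2 ≤ Q) (he : e = a x * a y * Q)
    (hSo : ∑ i ∈ (univ.erase x).erase y, (a i - 1) + 1 ≤ Q)
    (hl : e ≤ l + ∑ i, (a i - 1)) (hl' : e ≤ l' + 1 + ∑ i, (a i - 1))
    (u : ι → ℕ) (hM : wt a u = l + l')
    (hn : ∀ j, 2 ≤ a j → a j ≤ ∑ k ∈ univ.erase j, u k + 1) : Splits a l u := by
  by_cases hU : a x ≤ ∑ i ∈ univ.filter (fun i => a i = 1), u i + 1
  · exact splitO a u (a x) l l' (ha x) hA hU hM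
  by_cases hex : ∃ j, 2 ≤ a j ∧ bnd a x y j ≤ u j
  · obtain ⟨j, hj, hju⟩ := hex
    have hb1 : 1 ≤ bnd a x y j := by unfold bnd; split_ifs <;> omega
    exact splitS a u j (bnd a x y j) l l' hb1 (by omega) (fun k hk => le_bnd hA hB j k hk)
      (fun k hk => hcop k j hk) (hn j hj) hju
      (F1 hxy hB hB2 hlt hQ he hSo (hl.trans (by omega)) j)
      (F1 hxy hB hB2 hlt hQ he hSo hl' j) hM
  · exfalso
    push Not at hex hU
    have hx := hex x (by omega)
    have hy := hex y hB2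
    unfold bnd at hx hy
    simp only [if_true, hxy.symm, if_false] at hx hy
    set So := ∑ i ∈ (univ.erase x).erase y, (a i - 1) with hSodef
    set U1 := ∑ i ∈ univ.filter (fun i => a i = 1), u i with hU1
    have hothers : ∑ i ∈ (univ.erase x).erase y, a i * u i ≤ 2 * (a x - 1) * So + U1 := by
      have h1 : ∑ i ∈ (univ.erase x).erase y, a i * u i ≤
          ∑ i ∈ (univ.erase x).erase y, (2 * (a x - 1) * (a i - 1) +
            if a i = 1 then u i else 0) := by
        refine Finset.sum_le_sum fun i hi => ?_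
        have hiy : i ≠ y := Finset.ne_of_mem_erase hi
        have hix : i ≠ x := Finset.ne_of_mem_erase (Finset.mem_of_mem_erase hi)
        by_cases h1 : a i = 1
        · simp [h1]
        · have h2 := hex i (by have := ha i; omega)
          unfold bnd at h2
          simp only [hix, if_false] at h2
          simp only [h1, if_false, add_zero]
          have h3 : a i ≤ 2 * (a i - 1) := by have := ha i; omega
          calc a i * u i ≤ (2 * (a i - 1)) * (a x - 1) := Nat.mul_le_mul h3 (by omega)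
            _ = 2 * (a x - 1) * (a i - 1) := by ring
      have h2 : ∑ i ∈ (univ.erase x).erase y, (if a i = 1 then u i else 0) ≤ U1 := by
        rw [hU1, Finset.sum_filter]
        exact Finset.sum_le_sum_of_subset (Finset.subset_univ _)
      calc _ ≤ _ := h1
        _ = 2 * (a x - 1) * So + ∑ i ∈ (univ.erase x).erase y, (if a i = 1 then u i else 0) := by
            rw [Finset.sum_add_distrib, hSodef, Finset.mul_sum]
        _ ≤ _ := by omega
    have hw : wt a u = a x * u x + (a y * u y + ∑ i ∈ (univ.erase x).erase y, a i * u i) :=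
      sum_split x y hxy (fun i => a i * u i)
    have h5 : a x * u x ≤ a x * (a y - 1) := Nat.mul_le_mul_left _ (by omega)
    have h6 : a y * u y ≤ a y * (a x - 1) := Nat.mul_le_mul_left _ (by omega)
    have hMle : l + l' ≤ a x * (a y - 1) + a y * (a x - 1) + 2 * (a x - 1) * So + (a x - 2) := by
      rw [← hM]; omega
    rw [sum_split x y hxy (fun i => a i - 1)] at hl hl'
    have h2 : ((a x - 1 : ℕ) : ℤ) = (a x : ℤ) - 1 := by
      rw [Nat.cast_sub (by omega)]; simp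
    have h3 : ((a y - 1 : ℕ) : ℤ) = (a y : ℤ) - 1 := by
      rw [Nat.cast_sub (by omega)]; simp
    have h4 : ((a x - 2 : ℕ) : ℤ) = (a x : ℤ) - 2 := by
      rw [Nat.cast_sub (by omega)]; simp
    refine arith3 (a x) (a y) Q So (l + l' : ℕ) (by positivity) (by exact_mod_cast hB2)
      (by exact_mod_cast hlt) (by exact_mod_cast hQ) (by exact_mod_cast hSo) ?_ ?_
    · have h1 : 2 * (a x * a y * Q) ≤ l + l' + 1 + 2 * (a x - 1 + (a y - 1 + So)) := by
        rw [← he]; omega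
      have h7 : ((2 * (a x * a y * Q) : ℕ) : ℤ) ≤
        ((l + l' + 1 + 2 * (a x - 1 + (a y - 1 + So)) : ℕ) : ℤ) := by exact_mod_cast h1
      push_cast at h7 ⊢
      rw [h2, h3] at h7
      linarith
    · have h7 : ((l + l' : ℕ) : ℤ) ≤
          ((a x * (a y - 1) + a y * (a x - 1) + 2 * (a x - 1) * So + (a x - 2) : ℕ) : ℤ) := by
        exact_mod_cast hMle
      push_cast at h7 ⊢
      rw [h2, h3, h4] at h7
      linarith

end General

/-- Large integers are in the semigroup. -/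
lemma semi_large (A B n : ℕ) (hA : 2 ≤ A) (hB : 2 ≤ B) (hc : B.Coprime A)
    (hn : (A - 1) * (B - 1) ≤ n) : ∃ p q, n = B * p + A * q := by
  haveI : NeZero A := ⟨by omega⟩
  have hu : IsUnit ((B : ℕ) : ZMod A) := (ZMod.isUnit_iff_coprime _ _).2 hc
  obtain ⟨w, hw⟩ := hu
  set p := ((n : ZMod A) * (↑(w⁻¹) : ZMod A)).val with hp
  have hpA : p < A := ZMod.val_lt _
  have hmod : B * p ≡ n [MOD A] := by
    rw [← ZMod.natCast_eq_natCast_iff]
    push_cast
    rw [hp, ZMod.natCast_val, ZMod.cast_id, ← hw]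
    rw [mul_comm (w : ZMod A), mul_assoc, Units.inv_mul, mul_one]
  by_cases h : B * p ≤ n
  · obtain ⟨q, hq⟩ := (Nat.modEq_iff_dvd' h).1 hmod
    exact ⟨p, q, by omega⟩
  · exfalso
    push Not at h
    obtain ⟨t, ht⟩ := (Nat.modEq_iff_dvd' h.le).1 hmod.symm
    have ht1 : 1 ≤ t := by
      rcases Nat.eq_zero_or_pos t with h0 | h0
      · subst h0; simp at ht; omega
      · exact h0
    have h1 : A ≤ A * t := Nat.le_mul_of_pos_right _ ht1
    have h2 : B * p ≤ B * (A - 1) := Nat.mul_le_mul_left _ (by omega)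
    obtain ⟨A', rfl⟩ : ∃ A', A = A' + 1 := ⟨A - 1, by omega⟩
    obtain ⟨B', rfl⟩ : ∃ B', B = B' + 1 := ⟨B - 1, by omega⟩
    simp only [Nat.add_sub_cancel] at *
    have h3 : (B' + 1) * A' = A' * B' + A' := by ring
    omega

/-- Slightly below the conductor no two consecutive integers are gaps. -/
lemma semi_two (A B n : ℕ) (hB : 2 ≤ B) (hAB : B < A) (hc : B.Coprime A)
    (hn : (A - 1) * (B - 2) + 1 ≤ n) :
    (∃ p q, n = B * p + A * q) ∨ (∃ p q, n + 1 = B * p + A * q) := by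
  haveI : NeZero A := ⟨by omega⟩
  have hu : IsUnit ((B : ℕ) : ZMod A) := (ZMod.isUnit_iff_coprime _ _).2 hc
  obtain ⟨w, hw⟩ := hu
  have key : ∀ m : ℕ, n ≤ m → (∃ p q, m = B * p + A * q) ∨ ∃ p, B * p = m + A := by
    intro m hm
    set p := ((m : ZMod A) * (↑(w⁻¹) : ZMod A)).val with hp
    have hpA : p < A := ZMod.val_lt _
    have hmod : B * p ≡ m [MOD A] := by
      rw [← ZMod.natCast_eq_natCast_iff]
      push_cast
      rw [hp, ZMod.natCast_val, ZMod.cast_id, ← hw]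
      rw [mul_comm (w : ZMod A), mul_assoc, Units.inv_mul, mul_one]
    by_cases h : B * p ≤ m
    · obtain ⟨q, hq⟩ := (Nat.modEq_iff_dvd' h).1 hmod
      exact Or.inl ⟨p, q, by omega⟩
    · right
      push Not at h
      obtain ⟨t, ht⟩ := (Nat.modEq_iff_dvd' h.le).1 hmod.symm
      have ht1 : 1 ≤ t := by
        rcases Nat.eq_zero_or_pos t with h0 | h0
        · subst h0; simp at ht; omega
        · exact h0
      have h2 : B * p ≤ B * (A - 1) := Nat.mul_le_mul_left _ (by omega)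
      have ht2 : t < 2 := by
        by_contra hcon
        push Not at hcon
        have h1 : A * 2 ≤ A * t := Nat.mul_le_mul_left _ hcon
        obtain ⟨A', rfl⟩ : ∃ A', A = A' + 1 := ⟨A - 1, by omega⟩
        obtain ⟨B', rfl⟩ : ∃ B', B = B' + 2 := ⟨B - 2, by omega⟩
        simp only [Nat.add_sub_cancel] at *
        have h3 : (B' + 2) * A' = A' * B' + 2 * A' := by ring
        omega
      have ht3 : t = 1 := by omega
      subst ht3
      exact ⟨p, by omega⟩
  rcases key n le_rfl with h | ⟨p, hp⟩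
  · exact Or.inl h
  rcases key (n + 1) (Nat.le_succ n) with h | ⟨p', hp'⟩
  · exact Or.inr h
  exfalso
  have h1 : B * p' = B * p + 1 := by omega
  have h2 : B ∣ 1 := by
    have : B ∣ B * p + 1 := ⟨p', h1.symm⟩
    exact (Nat.dvd_add_right ⟨p, rfl⟩).1 this
  have := Nat.le_of_dvd one_pos h2
  omega

end Pool.Agent.Helper40.Muk
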