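import Mathlib

/-!
# Splitting weighted multisets
-/

set_option autoImplicit false

open Finset

set_option linter.unusedSectionVars false
set_option linter.unusedSimpArgs false

namespace Pool.Agent.Helper40.Muk

variable {ι : Type} [Fintype ι] [DecidableEq ι]

/-- The weight of an exponent vector. -/
def wt (a u : ι → ℕ) : ℕ := ∑ i, a i * u i

lemma wt_add (a u v : ι → ℕ) : wt a (u + v) = wt a u + wt a v := by
  simp [wt, mul_add, Finset.sum_add_distrib]

lemma wt_mono (a : ι → ℕ) {u v : ι → ℕ} (h : u ≤ v) : wt a u ≤ wt a v :=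
  Finset.sum_le_sum fun i _ => Nat.mul_le_mul_left _ (h i)

lemma wt_sub (a : ι → ℕ) {u v : ι → ℕ} (h : v ≤ u) : wt a (u - v) + wt a v = wt a u := by
  rw [← wt_add]
  congr 1
  funext i
  have h1 : v i ≤ u i := h i
  simp only [Pi.add_apply, Pi.sub_apply]
  omega

lemma wt_single (a : ι → ℕ) (j : ι) (s : ℕ) : wt a (Pi.single j s) = a j * s := by
  unfold wt
  rw [Finset.sum_eq_single j]
  · simp
  · intro k _ hk
    simp [Pi.single_apply, hk]
  · simp

lemma wt_zero (a : ι → ℕ) : wt a 0 = 0 := by simp [wt]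

lemma wt_le (a u : ι → ℕ) (b : ℕ) (hb : ∀ i, u i ≠ 0 → a i ≤ b) : wt a u ≤ b * ∑ i, u i := by
  unfold wt
  rw [Finset.mul_sum]
  refine Finset.sum_le_sum fun i _ => ?_
  by_cases h : u i = 0
  · simp [h]
  · exact Nat.mul_le_mul_right _ (hb i h)

lemma single_le {u : ι → ℕ} {j : ι} {s : ℕ} (h : s ≤ u j) : Pi.single j s ≤ u := by
  intro k
  by_cases hk : k = j
  · subst hk; simpa using h
  · simp [Pi.single_apply, hk]

/-- Greedy choice. -/
lemma greedy (a : ι → ℕ) (b : ℕ) (hb0 : 1 ≤ b) (n : ℕ) : ∀ (u : ι → ℕ), ∑ i, u i = n →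
    (∀ i, u i ≠ 0 → a i ≤ b) → ∀ lo, lo ≤ wt a u → ∃ t, t ≤ u ∧ lo ≤ wt a t ∧ wt a t < lo + b := by
  induction n with
  | zero =>
    intro u hu hb lo hlo
    refine ⟨u, le_rfl, hlo, ?_⟩
    have h1 := wt_le a u b hb
    rw [hu] at h1
    omega
  | succ n ih =>
    intro u hu hb lo hlo
    by_cases h : wt a u < lo + b
    · exact ⟨u, le_rfl, hlo, h⟩
    · have hex : ∃ i, u i ≠ 0 := by
        by_contra hcon
        push Not at hcon
        have : ∑ i, u i = 0 := Finset.sum_eq_zero fun i _ => hcon i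
        omega
      obtain ⟨i, hi⟩ := hex
      have hle : Pi.single i 1 ≤ u := single_le (by omega)
      have h1 := wt_sub a hle
      rw [wt_single] at h1
      have hsum : ∑ k, (u - Pi.single i 1 : ι → ℕ) k = n := by
        have h2 : ∑ k, (u - Pi.single i 1 : ι → ℕ) k + ∑ k, (Pi.single i 1 : ι → ℕ) k = ∑ k, u k := by
          rw [← Finset.sum_add_distrib]
          refine Finset.sum_congr rfl fun k _ => ?_
          have h9 : (Pi.single i 1 : ι → ℕ) k ≤ u k := hle k
          simp only [Pi.sub_apply]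
          omega
        have h3 : ∑ k, (Pi.single i 1 : ι → ℕ) k = 1 := by
          rw [Finset.sum_pi_single']
          simp
        omega
      have hai := hb i hi
      obtain ⟨t, ht1, ht2, ht3⟩ := ih (u - Pi.single i 1) hsum (fun k hk => hb k (by
        intro h0
        apply hk
        simp [Pi.sub_apply, h0])) lo (by omega)
      exact ⟨t, ht1.trans (by intro k; simp [Pi.sub_apply]), ht2, ht3⟩

/-- A sub-multiset of given size. -/
lemma exists_size (u : ι → ℕ) (c : ℕ) (hc : c ≤ ∑ i, u i) : ∃ t, t ≤ u ∧ ∑ i, t i = c := by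
  have h := greedy (fun _ : ι => 1) 1 le_rfl (∑ i, u i) u rfl (fun _ _ => le_rfl) c
    (by simpa [wt] using hc)
  obtain ⟨t, h1, h2, h3⟩ := h
  refine ⟨t, h1, ?_⟩
  simp only [wt, one_mul] at h2 h3
  omega

/-- Residues of the weights of the sub-multisets. -/
lemma residue_card (m : ℕ) [NeZero m] (a : ι → ℕ) (n : ℕ) : ∀ (Q : ι → ℕ), ∑ i, Q i = n →
    (∀ i, Q i ≠ 0 → (a i).Coprime m) →
    min m (n + 1) ≤ ({ρ : ZMod m | ∃ q, q ≤ Q ∧ ((wt a q : ℕ) : ZMod m) = ρ}).ncard := by
  induction n with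
  | zero =>
    intro Q hQ hcop
    have hne : ({ρ : ZMod m | ∃ q, q ≤ Q ∧ ((wt a q : ℕ) : ZMod m) = ρ}).Nonempty :=
      ⟨0, 0, fun i => Nat.zero_le _, by simp [wt_zero]⟩
    have := (Set.ncard_pos (Set.toFinite _)).2 hne
    omega
  | succ n ih =>
    intro Q hQ hcop
    have hex : ∃ i, Q i ≠ 0 := by
      by_contra hcon
      push Not at hcon
      have : ∑ i, Q i = 0 := Finset.sum_eq_zero fun i _ => hcon i
      omega
    obtain ⟨i, hi⟩ := hex
    have hle : Pi.single i 1 ≤ Q := single_le (by omega)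
    have hsum : ∑ k, (Q - Pi.single i 1 : ι → ℕ) k = n := by
      have h2 : ∑ k, (Q - Pi.single i 1 : ι → ℕ) k + ∑ k, (Pi.single i 1 : ι → ℕ) k = ∑ k, Q k := by
        rw [← Finset.sum_add_distrib]
        refine Finset.sum_congr rfl fun k _ => ?_
        have h9 : (Pi.single i 1 : ι → ℕ) k ≤ Q k := hle k
        simp only [Pi.sub_apply]
        omega
      have h3 : ∑ k, (Pi.single i 1 : ι → ℕ) k = 1 := by
        rw [Finset.sum_pi_single']
        simp
      omega
    have hsubQ : (Q - Pi.single i 1 : ι → ℕ) ≤ Q := by intro k; simp [Pi.sub_apply]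
    have hih := ih (Q - Pi.single i 1) hsum (fun k hk => hcop k (by
      intro h0; apply hk; simp [Pi.sub_apply, h0]))
    set R' : Set (ZMod m) := {ρ | ∃ q, q ≤ (Q - Pi.single i 1 : ι → ℕ) ∧
      ((wt a q : ℕ) : ZMod m) = ρ} with hR'
    set R : Set (ZMod m) := {ρ | ∃ q, q ≤ Q ∧ ((wt a q : ℕ) : ZMod m) = ρ} with hR
    have hsub : R' ⊆ R := by
      rintro ρ ⟨q, hq, rfl⟩
      exact ⟨q, hq.trans hsubQ, rfl⟩
    have hshift : ∀ ρ ∈ R', ρ + (a i : ZMod m) ∈ R := by
      rintro ρ ⟨q, hq, rfl⟩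
      refine ⟨q + Pi.single i 1, ?_, ?_⟩
      · intro k
        have h1 : q k ≤ (Q - Pi.single i 1 : ι → ℕ) k := hq k
        have h2 : (Pi.single i 1 : ι → ℕ) k ≤ Q k := hle k
        simp only [Pi.sub_apply] at h1
        change q k + (Pi.single i 1 : ι → ℕ) k ≤ Q k
        omega
      · rw [wt_add, wt_single]
        push_cast
        ring
    by_cases hcl : ∀ ρ ∈ R', ρ + (a i : ZMod m) ∈ R'
    · -- everything is reached
      have hunit : IsUnit ((a i : ℕ) : ZMod m) := (ZMod.isUnit_iff_coprime _ _).2 (hcop i hi)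
      have hmul : ∀ k : ℕ, (k : ZMod m) * (a i : ZMod m) ∈ R' := by
        intro k
        induction k with
        | zero =>
          simp only [Nat.cast_zero, zero_mul]
          exact ⟨0, fun i => Nat.zero_le _, by simp [wt_zero]⟩
        | succ k ihk =>
          have := hcl _ ihk
          push_cast
          rw [add_mul, one_mul]
          exact this
      have huniv : R = Set.univ := by
        apply Set.eq_univ_of_forall
        intro ρ
        obtain ⟨w, hw⟩ := hunit
        have h1 := hmul (ρ * (↑(w⁻¹) : ZMod m)).val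
        rw [ZMod.natCast_val, ZMod.cast_id, ← hw, mul_assoc, Units.inv_mul, mul_one] at h1
        exact hsub h1
      rw [huniv, Set.ncard_univ, Nat.card_zmod]
      exact min_le_left _ _
    · push Not at hcl
      obtain ⟨ρ, hρ1, hρ2⟩ := hcl
      have hss : R' ⊂ R := by
        refine ⟨hsub, fun h => hρ2 (h (hshift ρ hρ1))⟩
      have := Set.ncard_lt_ncard hss (Set.toFinite _)
      omega

lemma residues (m : ℕ) (hm : 0 < m) (a Q : ι → ℕ) (hcop : ∀ i, Q i ≠ 0 → (a i).Coprime m)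
    (hc : m ≤ ∑ i, Q i + 1) (ρ : ℕ) : ∃ q, q ≤ Q ∧ wt a q ≡ ρ [MOD m] := by
  haveI : NeZero m := ⟨by omega⟩
  have h := residue_card m a _ Q rfl hcop
  rw [min_eq_left hc] at h
  have huniv : {ρ : ZMod m | ∃ q, q ≤ Q ∧ ((wt a q : ℕ) : ZMod m) = ρ} = Set.univ := by
    apply Set.eq_of_subset_of_ncard_le (Set.subset_univ _)
    · rw [Set.ncard_univ, Nat.card_zmod]
      exact h
  have hmem : ((ρ : ℕ) : ZMod m) ∈ {ρ : ZMod m | ∃ q, q ≤ Q ∧ ((wt a q : ℕ) : ZMod m) = ρ} := by
    rw [huniv]; trivial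
  obtain ⟨q, hq, hq2⟩ := hmem
  exact ⟨q, hq, (ZMod.natCast_eq_natCast_iff _ _ _).1 hq2⟩

/-- The monomial splits. -/
def Splits (a : ι → ℕ) (l : ℕ) (u : ι → ℕ) : Prop := ∃ v, v ≤ u ∧ wt a v = l

lemma splitS (a u : ι → ℕ) (j : ι) (b l l' : ℕ) (hb1 : 1 ≤ b) (hpos : 0 < a j)
    (hb : ∀ k, k ≠ j → a k ≤ b) (hcop : ∀ k, k ≠ j → (a k).Coprime (a j))
    (hO : a j ≤ ∑ k ∈ univ.erase j, u k + 1) (hu : b ≤ u j)
    (hl : (a j - 1) * b ≤ l) (hl' : (a j - 1) * b ≤ l') (hM : wt a u = l + l') :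
    Splits a l u := by
  set w : ι → ℕ := Function.update u j 0 with hw
  have hwj : w j = 0 := by simp [hw]
  have hwk : ∀ k, k ≠ j → w k = u k := fun k hk => by simp [hw, hk]
  have hwle : w ≤ u := by
    intro k
    by_cases hk : k = j
    · subst hk; rw [hwj]; exact Nat.zero_le _
    · rw [hwk k hk]
  have hsumw : ∑ k, w k = ∑ k ∈ univ.erase j, u k := by
    rw [← Finset.add_sum_erase _ _ (mem_univ j), hwj, zero_add]
    exact Finset.sum_congr rfl fun k hk => hwk k (Finset.ne_of_mem_erase hk)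
  have huw : u = w + Pi.single j (u j) := by
    funext k
    by_cases hk : k = j
    · subst hk; simp [hwj]
    · simp [hwk k hk, Pi.single_apply, hk]
  have hwtu : wt a u = wt a w + a j * u j := by
    conv_lhs => rw [huw]
    rw [wt_add, wt_single]
  obtain ⟨Q, hQ1, hQ2⟩ := exists_size w (a j - 1) (by rw [hsumw]; omega)
  have hQj : Q j = 0 := by have h9 : Q j ≤ w j := hQ1 j; rw [hwj] at h9; omega
  have hQb : wt a Q ≤ (a j - 1) * b := by
    have := wt_le a Q b (fun i hi => hb i (by rintro rfl; exact hi hQj))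
    rw [hQ2, mul_comm] at this
    exact this
  have hrest := wt_sub a hQ1
  set rest : ι → ℕ := w - Q with hrestdef
  have hrestj : rest j = 0 := by simp [hrestdef, hwj]
  have hrestk : ∀ k, rest k + Q k = w k := by
    intro k; have h9 : Q k ≤ w k := hQ1 k; simp only [hrestdef, Pi.sub_apply]; omega
  have hau : a j * b ≤ a j * u j := Nat.mul_le_mul_left _ hu
  have haj : (a j - 1) * b + b = a j * b := by
    obtain ⟨c, hc⟩ : ∃ c, a j = c + 1 := ⟨a j - 1, by omega⟩
    rw [hc]; simp; ring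
  have hkey : ∃ t, t ≤ rest ∧ l ≤ wt a t + a j * u j ∧ wt a t + (a j - 1) * b ≤ l := by
    by_cases hlo : l ≤ a j * u j
    · exact ⟨0, fun i => Nat.zero_le _, by rw [wt_zero]; omega, by rw [wt_zero]; omega⟩
    · obtain ⟨t, ht1, ht2, ht3⟩ := greedy a b hb1 _ rest rfl (fun i hi => hb i (by
        rintro rfl; exact hi hrestj)) (l - a j * u j) (by omega)
      exact ⟨t, ht1, by omega, by omega⟩
  obtain ⟨t, ht1, ht2, ht3⟩ := hkey
  obtain ⟨q, hq1, hq2⟩ := residues (a j) hpos a Q (fun i hi => hcop i (by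
    rintro rfl; exact hi hQj)) (by omega) (l - wt a t)
  have hqw : wt a q ≤ wt a Q := wt_mono a hq1
  have hdvd : a j ∣ l - wt a t - wt a q :=
    (Nat.modEq_iff_dvd' (by omega)).1 hq2
  obtain ⟨s, hs⟩ := hdvd
  have hsu : s ≤ u j := by
    have h1 : a j * s ≤ a j * u j := by omega
    exact Nat.le_of_mul_le_mul_left h1 hpos
  refine ⟨t + q + Pi.single j s, ?_, ?_⟩
  · intro k
    by_cases hk : k = j
    · subst hk
      have h1 : t k ≤ rest k := ht1 k
      have h2 : q k ≤ Q k := hq1 k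
      rw [hrestj] at h1
      rw [hQj] at h2
      change t k + q k + (Pi.single k s : ι → ℕ) k ≤ u k
      simp only [Pi.single_eq_same]
      omega
    · have h1 : t k ≤ rest k := ht1 k
      have h2 : q k ≤ Q k := hq1 k
      have h3 := hrestk k
      rw [hwk k hk] at h3
      change t k + q k + (Pi.single j s : ι → ℕ) k ≤ u k
      simp only [Pi.single_apply, hk, if_false]
      omega
  · rw [wt_add, wt_add, wt_single]
    omega

lemma splitO (a u : ι → ℕ) (A l l' : ℕ) (hA1 : 1 ≤ A) (hA : ∀ i, a i ≤ A)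
    (hU : A ≤ ∑ i ∈ univ.filter (fun i => a i = 1), u i + 1) (hM : wt a u = l + l') :
    Splits a l u := by
  set h : ι → ℕ := fun i => if a i = 1 then 0 else u i with hh
  set o : ι → ℕ := fun i => if a i = 1 then u i else 0 with ho
  have huho : u = h + o := by
    funext i
    by_cases hi : a i = 1 <;> simp [hh, ho, hi]
  have hsumo : ∑ i, o i = ∑ i ∈ univ.filter (fun i => a i = 1), u i := by
    rw [Finset.sum_filter]
  have hwto : ∀ o' : ι → ℕ, o' ≤ o → wt a o' = ∑ i, o' i := by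
    intro o' ho'
    refine Finset.sum_congr rfl fun i _ => ?_
    by_cases hi : a i = 1
    · rw [hi, one_mul]
    · have h1 : o' i ≤ o i := ho' i
      simp only [ho, hi, if_false] at h1
      have : o' i = 0 := by omega
      rw [this, mul_zero]
  have hwtu : wt a u = wt a h + ∑ i, o i := by
    conv_lhs => rw [huho]
    rw [wt_add, hwto o le_rfl]
  have hkey : ∃ t, t ≤ h ∧ l ≤ wt a t + ∑ i, o i ∧ wt a t ≤ l := by
    by_cases hlo : l ≤ ∑ i, o i
    · exact ⟨0, fun i => Nat.zero_le _, by rw [wt_zero]; omega, by rw [wt_zero]; omega⟩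
    · obtain ⟨t, ht1, ht2, ht3⟩ := greedy a A hA1 _ h rfl (fun i _ => hA i)
        (l - ∑ i, o i) (by omega)
      exact ⟨t, ht1, by omega, by omega⟩
  obtain ⟨t, ht1, ht2, ht3⟩ := hkey
  obtain ⟨o', ho1, ho2⟩ := exists_size o (l - wt a t) (by omega)
  refine ⟨t + o', ?_, ?_⟩
  · intro i
    have h1 : t i ≤ h i := ht1 i
    have h2 : o' i ≤ o i := ho1 i
    have h3 := congrFun huho i
    simp only [Pi.add_apply] at h3
    change t i + o' i ≤ u i
    omega
  · rw [wt_add, hwto o' ho1, ho2]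
    omega

end Pool.Agent.Helper40.Muk
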