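import Pool.Agent.Helper40.Muk.Arith

/-!
# Rewriting monomials modulo a form with pure powers
-/

set_option autoImplicit false

open Finset MvPolynomial

set_option linter.unusedSectionVars false
set_option linter.unusedSimpArgs false
set_option linter.unusedVariables false

namespace Pool.Agent.Helper40.Muk

variable {ι : Type} [Fintype ι] [DecidableEq ι] {K : Type} [Field K]

lemma weight_eq (a : ι → ℕ) (u : ι →₀ ℕ) : Finsupp.weight a u = wt a u := by
  rw [Finsupp.weight_apply, Finsupp.sum_fintype _ _ (by simp)]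
  simp [wt, mul_comm]

/-- The products of forms of degrees `l` and `l'`, plus the multiples of `f`. -/
noncomputable def Icap (a : ι → ℕ) (f : MvPolynomial ι K) (l l' : ℕ) :
    Submodule K (MvPolynomial ι K) :=
  (weightedHomogeneousSubmodule K a l * weightedHomogeneousSubmodule K a l') ⊔
    (Ideal.span {f}).restrictScalars K

variable {a : ι → ℕ} {f : MvPolynomial ι K} {l l' : ℕ}

lemma mem_of_splits (u : ι →₀ ℕ) (hM : wt a u = l + l') (hs : Splits a l u) :
    monomial u (1 : K) ∈ Icap a f l l' := by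
  obtain ⟨v, hv, hvl⟩ := hs
  set v' : ι →₀ ℕ := Finsupp.equivFunOnFinite.symm v with hv'
  have hvv : (v' : ι → ℕ) = v := by rw [hv']; rfl
  have hle : v' ≤ u := by
    intro i
    rw [hvv]
    exact hv i
  have hsum : u = v' + (u - v') := by
    ext i
    have h1 : v' i ≤ u i := hle i
    simp only [Finsupp.add_apply, Finsupp.tsub_apply]
    omega
  have hw : wt a (u - v' : ι →₀ ℕ) = l' := by
    have h1 : wt a u = wt a v' + wt a (u - v' : ι →₀ ℕ) := by
      conv_lhs => rw [hsum]
      rw [Finsupp.coe_add, wt_add]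
    rw [hvv] at h1
    omega
  apply Submodule.mem_sup_left
  have hprod : monomial u (1 : K) = monomial v' 1 * monomial (u - v') 1 := by
    rw [monomial_mul, one_mul, ← hsum]
  rw [hprod]
  refine Submodule.mul_mem_mul ?_ ?_
  · rw [mem_weightedHomogeneousSubmodule]
    exact isWeightedHomogeneous_monomial _ _ _ (by rw [weight_eq, hvv, hvl])
  · rw [mem_weightedHomogeneousSubmodule]
    exact isWeightedHomogeneous_monomial _ _ _ (by rw [weight_eq, hw])

lemma rewriting (u s : ι →₀ ℕ) (hs : s ≤ u) (hc : coeff s f ≠ 0)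
    (h : ∀ g ∈ f.support, g ≠ s → monomial (u - s + g) (1 : K) ∈ Icap a f l l') :
    monomial u (1 : K) ∈ Icap a f l l' := by
  have h1 : monomial (u - s) (1 : K) * f ∈ Icap a f l l' := by
    apply Submodule.mem_sup_right
    rw [Submodule.restrictScalars_mem]
    exact Ideal.mul_mem_left _ _ (Ideal.subset_span rfl)
  have h2 : monomial (u - s) (1 : K) * f =
      ∑ g ∈ f.support, coeff g f • monomial (u - s + g) (1 : K) := by
    conv_lhs => rw [f.as_sum]
    rw [Finset.mul_sum]
    refine Finset.sum_congr rfl fun g _ => ?_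
    rw [monomial_mul, one_mul, smul_monomial, smul_eq_mul, mul_one]
  have hsup : s ∈ f.support := mem_support_iff.2 hc
  rw [← Finset.add_sum_erase _ _ hsup] at h2
  have hus : u - s + s = u := by
    ext i
    have h3 : s i ≤ u i := hs i
    simp only [Finsupp.add_apply, Finsupp.tsub_apply]
    omega
  rw [hus] at h2
  have h3 : ∑ g ∈ f.support.erase s, coeff g f • monomial (u - s + g) (1 : K) ∈
      Icap a f l l' :=
    Submodule.sum_mem _ fun g hg =>
      Submodule.smul_mem _ _ (h g (Finset.mem_of_mem_erase hg) (Finset.ne_of_mem_erase hg))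
  have h4 : coeff s f • monomial u (1 : K) ∈ Icap a f l l' := by
    have : coeff s f • monomial u (1 : K) = monomial (u - s) (1 : K) * f -
        ∑ g ∈ f.support.erase s, coeff g f • monomial (u - s + g) (1 : K) := by
      rw [h2]; ring
    rw [this]
    exact Submodule.sub_mem _ h1 h3
  have h5 := Submodule.smul_mem (Icap a f l l') (coeff s f)⁻¹ h4
  rwa [smul_smul, inv_mul_cancel₀ hc, one_smul] at h5

variable {e : ℕ}

lemma wt_support (hf : IsWeightedHomogeneous a f e) {g : ι →₀ ℕ} (hg : g ∈ f.support) :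
    wt a g = e := by
  rw [← weight_eq]
  exact hf (mem_support_iff.1 hg)

/-- A monomial of the form different from the pure power has a small exponent. -/
lemma small_exp (ha : ∀ i, 1 ≤ a i) (hf : IsWeightedHomogeneous a f e) {g : ι →₀ ℕ}
    (hg : g ∈ f.support) (j : ι) (s : ℕ) (hs : e = a j * s) (hne : g ≠ Finsupp.single j s) :
    g j < s := by
  by_contra hcon
  push Not at hcon
  have h1 := wt_support hf hg
  have h2 : wt a g = a j * g j + ∑ k ∈ univ.erase j, a k * g k := by
    unfold wt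
    rw [← Finset.add_sum_erase _ _ (mem_univ j)]
  have h3 : a j * s ≤ a j * g j := Nat.mul_le_mul_left _ hcon
  have h4 : a j * g j = a j * s := by omega
  have h5 : g j = s := Nat.eq_of_mul_eq_mul_left (ha j) h4
  have h6 : ∑ k ∈ univ.erase j, a k * g k = 0 := by omega
  apply hne
  ext k
  by_cases hk : k = j
  · subst hk; simp [h5]
  · have h7 := (Finset.sum_eq_zero_iff.1 h6) k (Finset.mem_erase.2 ⟨hk, mem_univ k⟩)
    have h8 : g k = 0 := by
      rcases Nat.mul_eq_zero.1 h7 with h0 | h0
      · have := ha k; omega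
      · exact h0
    rw [h8]
    simp [Finsupp.single_apply, Ne.symm hk]

lemma wt_rewrite (hf : IsWeightedHomogeneous a f e) {g : ι →₀ ℕ}
    (hg : g ∈ f.support) (j : ι) (s : ℕ) (hs : e = a j * s) (u : ι →₀ ℕ) (hsu : s ≤ u j)
    : wt a (u - Finsupp.single j s + g : ι →₀ ℕ) = wt a u := by
  have h1 := wt_support hf hg
  rw [Finsupp.coe_add, wt_add, h1]
  have h2 : ((u - Finsupp.single j s : ι →₀ ℕ) : ι → ℕ) = (u : ι → ℕ) - Pi.single j s := by
    funext k
    by_cases hk : k = j
    · subst hk; simp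
    · simp [Finsupp.single_apply, Pi.single_apply, hk, Ne.symm hk]
  rw [h2]
  have h3 := wt_sub a (single_le (u := (u : ι → ℕ)) (j := j) hsu)
  rw [wt_single] at h3
  omega

lemma le_sum_erase {u : ι → ℕ} {j k : ι} (h : k ≠ j) : u k ≤ ∑ i ∈ univ.erase j, u i :=
  Finset.single_le_sum (f := u) (fun i _ => Nat.zero_le _) (Finset.mem_erase.2 ⟨h, mem_univ k⟩)

section General

variable {x y : ι} {Q : ℕ}

/-- The induction on the exponent of the concentrated variable. -/
lemma claimQ (hxy : x ≠ y) (ha : ∀ i, 1 ≤ a i) (hcop : ∀ i j, i ≠ j → (a i).Coprime (a j))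
    (hA : ∀ i, a i ≤ a x) (hB : ∀ i, i ≠ x → a i ≤ a y)
    (hB2 : 2 ≤ a y) (hlt : a y < a x) (hQ : 2 ≤ Q) (he : e = a x * a y * Q)
    (hSo : ∑ i ∈ (univ.erase x).erase y, (a i - 1) + 1 ≤ Q)
    (hl : e ≤ l + ∑ i, (a i - 1)) (hl' : e ≤ l' + 1 + ∑ i, (a i - 1))
    (hf : IsWeightedHomogeneous a f e)
    (hp : ∀ i, 2 ≤ a i → a i ∣ e ∧ coeff (Finsupp.single i (e / a i)) f ≠ 0)
    (j : ι) (hj : 2 ≤ a j) (n : ℕ) : ∀ u : ι →₀ ℕ, u j = n → wt a u = l + l' →
      (∀ j', j' ≠ j → 2 ≤ a j' → a j' ≤ ∑ k ∈ univ.erase j', u k + 1) →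
      monomial u (1 : K) ∈ Icap a f l l' := by
  induction n using Nat.strong_induction_on with
  | _ n ih =>
  intro u hun hM hcon
  by_cases hc : a j ≤ ∑ k ∈ univ.erase j, u k + 1
  · refine mem_of_splits u hM (F3 hxy ha hcop hA hB hB2 hlt hQ he hSo hl hl' u hM ?_)
    intro j' hj'
    by_cases h : j' = j
    · subst h; exact hc
    · exact hcon j' h hj'
  · push Not at hc
    obtain ⟨hdvd, hcoef⟩ := hp j hj
    set s := e / a j with hs
    have hes : e = a j * s := by rw [hs, Nat.mul_div_cancel' hdvd]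
    obtain ⟨h1, h2⟩ := F2 hxy ha hA hB hB2 hlt hQ he hSo hl hl' u hM j hj (by omega) s hes
    refine rewriting u (Finsupp.single j s) ?_ hcoef ?_
    · intro k
      by_cases hk : k = j
      · subst hk; simpa using h1
      · simp [Finsupp.single_apply, Ne.symm hk]
    · intro g hg hne
      have hgj := small_exp ha hf hg j s hes hne
      have hval : (u - Finsupp.single j s + g : ι →₀ ℕ) j = u j - s + g j := by
        simp
      refine ih (u j - s + g j) (by omega) _ hval ?_ ?_
      · rw [wt_rewrite hf hg j s hes u h1, hM]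
      · intro j' hj' hj'2
        have h3 : (u - Finsupp.single j s + g : ι →₀ ℕ) j ≤
            ∑ k ∈ univ.erase j', (u - Finsupp.single j s + g : ι →₀ ℕ) k :=
          le_sum_erase (Ne.symm hj')
        have h4 := le_bnd hA hB j j' hj'
        rw [hval] at h3
        omega

/-- The case `Q ≥ 2`. -/
lemma mainQ (hxy : x ≠ y) (ha : ∀ i, 1 ≤ a i) (hcop : ∀ i j, i ≠ j → (a i).Coprime (a j))
    (hA : ∀ i, a i ≤ a x) (hB : ∀ i, i ≠ x → a i ≤ a y)
    (hB2 : 2 ≤ a y) (hlt : a y < a x) (hQ : 2 ≤ Q) (he : e = a x * a y * Q)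
    (hSo : ∑ i ∈ (univ.erase x).erase y, (a i - 1) + 1 ≤ Q)
    (hl : e ≤ l + ∑ i, (a i - 1)) (hl' : e ≤ l' + 1 + ∑ i, (a i - 1))
    (hf : IsWeightedHomogeneous a f e)
    (hp : ∀ i, 2 ≤ a i → a i ∣ e ∧ coeff (Finsupp.single i (e / a i)) f ≠ 0)
    (u : ι →₀ ℕ) (hM : wt a u = l + l') :
    monomial u (1 : K) ∈ Icap a f l l' := by
  by_cases hex : ∃ j, 2 ≤ a j ∧ ∑ k ∈ univ.erase j, u k + 2 ≤ a j
  · obtain ⟨j, hj, hjc⟩ := hex
    obtain ⟨hdvd, hcoef⟩ := hp j hj
    obtain ⟨s, hes⟩ := hdvd
    obtain ⟨h1, h2⟩ := F2 hxy ha hA hB hB2 hlt hQ he hSo hl hl' u hM j hj hjc s hes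
    refine claimQ hxy ha hcop hA hB hB2 hlt hQ he hSo hl hl' hf hp j hj (u j) u rfl hM ?_
    intro j' hj' _
    have h3 : u j ≤ ∑ k ∈ univ.erase j', u k := le_sum_erase (u := (u : ι → ℕ)) (Ne.symm hj')
    have h4 := le_bnd hA hB j j' hj'
    omega
  · push Not at hex
    refine mem_of_splits u hM (F3 hxy ha hcop hA hB hB2 hlt hQ he hSo hl hl' u hM ?_)
    intro j hj
    have := hex j hj
    omega

end General

/-- At most one weight is larger than one. -/
lemma mainOne (x : ι) (hx : ∀ i, i ≠ x → a i = 1) (hax : 1 ≤ a x) (he : 0 < e)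
    (hl : e ≤ l + ∑ i, (a i - 1)) (hl' : e ≤ l' + 1 + ∑ i, (a i - 1))
    (hf : IsWeightedHomogeneous a f e)
    (hp : ∀ i, 2 ≤ a i → a i ∣ e ∧ coeff (Finsupp.single i (e / a i)) f ≠ 0) (n : ℕ) :
    ∀ u : ι →₀ ℕ, u x = n → wt a u = l + l' →
      monomial u (1 : K) ∈ Icap a f l l' := by
  have ha : ∀ i, 1 ≤ a i := by
    intro i
    by_cases h : i = x
    · subst h; exact hax
    · rw [hx i h]
  have hA : ∀ i, a i ≤ a x := by
    intro i
    by_cases h : i = x
    · subst h; exact le_rfl
    · rw [hx i h]; exact hax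
  have hsum : ∑ i, (a i - 1) = a x - 1 := by
    rw [Finset.sum_eq_single x]
    · intro i _ hi
      simp [hx i hi]
    · simp
  rw [hsum] at hl hl'
  induction n using Nat.strong_induction_on with
  | _ n ih =>
  intro u hun hM
  by_cases hU : a x ≤ ∑ i ∈ univ.filter (fun i => a i = 1), u i + 1
  · exact mem_of_splits u hM (splitO a u (a x) l l' hax hA hU hM)
  push Not at hU
  have hax2 : 2 ≤ a x := by omega
  have hfil : univ.filter (fun i => a i = 1) = univ.erase x := by
    ext i
    simp only [mem_filter, mem_univ, true_and, mem_erase, and_true]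
    constructor
    · rintro h1 rfl; omega
    · exact hx i
  rw [hfil] at hU
  obtain ⟨hdvd, hcoef⟩ := hp x hax2
  set s := e / a x with hs
  have hes : e = a x * s := by rw [hs, Nat.mul_div_cancel' hdvd]
  have hw : wt a u = a x * u x + ∑ k ∈ univ.erase x, u k := by
    have h1 : wt a u = a x * u x + ∑ k ∈ univ.erase x, a k * u k := by
      unfold wt
      rw [← Finset.add_sum_erase _ _ (mem_univ x)]
    rw [h1]
    congr 1
    refine Finset.sum_congr rfl fun k hk => ?_
    rw [hx k (Finset.ne_of_mem_erase hk), one_mul]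
  by_cases hsu : s ≤ u x
  · refine rewriting u (Finsupp.single x s) ?_ hcoef ?_
    · intro k
      by_cases hk : k = x
      · subst hk; simpa using hsu
      · simp [Finsupp.single_apply, Ne.symm hk]
    · intro g hg hne
      have hgj := small_exp ha hf hg x s hes hne
      have hval : (u - Finsupp.single x s + g : ι →₀ ℕ) x = u x - s + g x := by
        simp
      refine ih (u x - s + g x) (by omega) _ hval ?_
      rw [wt_rewrite hf hg x s hes u hsu, hM]
  · push Not at hsu
    have hs0 : 1 ≤ s := by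
      rcases Nat.eq_zero_or_pos s with h0 | h0
      · rw [h0] at hes; omega
      · exact h0
    obtain ⟨s', hs'⟩ : ∃ s', s = s' + 1 := ⟨s - 1, by omega⟩
    rw [hs'] at hes hsu
    have h1 : a x * u x ≤ a x * s' := Nat.mul_le_mul_left _ (by omega)
    have h2 : a x * (s' + 1) = a x * s' + a x := by ring
    have hs'0 : s' = 0 := by
      by_contra hcon
      have h3 : a x * 1 ≤ a x * s' := Nat.mul_le_mul_left _ (by omega)
      omega
    have hux : u x = 0 := by omega
    rw [hux, mul_zero, zero_add] at hw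
    have hsumu : ∑ k, u k = l + l' := by
      rw [← Finset.add_sum_erase _ _ (mem_univ x), hux, zero_add, ← hw, hM]
    obtain ⟨v, hv1, hv2⟩ := exists_size (u : ι → ℕ) l (by omega)
    refine mem_of_splits u hM ⟨v, hv1, ?_⟩
    have hvx : v x = 0 := by
      have h9 : v x ≤ u x := hv1 x
      omega
    rw [← hv2]
    refine Finset.sum_congr rfl fun k _ => ?_
    by_cases hk : k = x
    · subst hk; rw [hvx, mul_zero]
    · rw [hx k hk, one_mul]

end Pool.Agent.Helper40.Muk
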