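import Pool.Agent.Helper40.Muk.Poly

/-!
# Two weights larger than one and the smallest possible degree
-/

set_option autoImplicit false

open Finset MvPolynomial

set_option linter.unusedSectionVars false
set_option linter.unusedSimpArgs false
set_option linter.unusedVariables false

namespace Pool.Agent.Helper40.Muk

variable {ι : Type} [Fintype ι] [DecidableEq ι] {K : Type} [Field K]

variable {a : ι → ℕ} {f : MvPolynomial ι K} {l l' : ℕ} {x y : ι}

/-- The degree in the variables of weight one. -/
def UU (x y : ι) (u : ι → ℕ) : ℕ := ∑ k ∈ (univ.erase x).erase y, u k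

lemma wt_tight (hxy : x ≠ y) (h1 : ∀ i, i ≠ x → i ≠ y → a i = 1) (u : ι → ℕ) :
    wt a u = a x * u x + (a y * u y + UU x y u) := by
  unfold wt UU
  rw [sum_split x y hxy (fun i => a i * u i)]
  congr 2
  refine Finset.sum_congr rfl fun k hk => ?_
  have hky : k ≠ y := Finset.ne_of_mem_erase hk
  have hkx : k ≠ x := Finset.ne_of_mem_erase (Finset.mem_of_mem_erase hk)
  rw [h1 k hkx hky, one_mul]

lemma UU_add (u v : ι → ℕ) : UU x y (u + v) = UU x y u + UU x y v := by
  simp [UU, Finset.sum_add_distrib]

lemma UU_congr {u v : ι → ℕ} (h : ∀ k, k ≠ x → k ≠ y → u k = v k) : UU x y u = UU x y v := by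
  refine Finset.sum_congr rfl fun k hk => ?_
  exact h k (Finset.ne_of_mem_erase (Finset.mem_of_mem_erase hk)) (Finset.ne_of_mem_erase hk)

lemma tight_support (hxy : x ≠ y) (h1 : ∀ i, i ≠ x → i ≠ y → a i = 1)
    (hB2 : 2 ≤ a y) (hlt : a y < a x) (hc : (a y).Coprime (a x))
    (hf : IsWeightedHomogeneous a f (a x * a y)) {g : ι →₀ ℕ} (hg : g ∈ f.support)
    (hU : UU x y g = 0) : g = Finsupp.single x (a y) ∨ g = Finsupp.single y (a x) := by
  have hw := wt_support hf hg
  rw [wt_tight hxy h1, hU, add_zero] at hw
  have hzero : ∀ k, k ≠ x → k ≠ y → g k = 0 := by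
    intro k hkx hky
    exact (Finset.sum_eq_zero_iff.1 hU) k
      (Finset.mem_erase.2 ⟨hky, Finset.mem_erase.2 ⟨hkx, mem_univ k⟩⟩)
  have hdvd : a x ∣ a y * g y := by
    have h2 : a x ∣ a x * g x + a y * g y := by rw [hw]; exact ⟨a y, rfl⟩
    exact (Nat.dvd_add_right ⟨g x, rfl⟩).1 h2
  have hdvd2 : a x ∣ g y := hc.symm.dvd_of_dvd_mul_left hdvd
  obtain ⟨c, hcc⟩ := hdvd2
  have hpos : 0 < a x * a y := Nat.mul_pos (by omega) (by omega)
  have hc2 : c < 2 := by
    by_contra hcon
    push Not at hcon
    have h3 : a y * (a x * 2) ≤ a y * g y := by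
      rw [hcc]
      exact Nat.mul_le_mul_left _ (Nat.mul_le_mul_left _ hcon)
    have h4 : a y * (a x * 2) = 2 * (a x * a y) := by ring
    omega
  have hext : ∀ (p q : ℕ), g x = p → g y = q →
      g = Finsupp.single x p + Finsupp.single y q := by
    intro p q hp hq
    ext k
    by_cases hkx : k = x
    · subst hkx
      simp [Finsupp.single_apply, hxy.symm, hp]
    · by_cases hky : k = y
      · subst hky
        simp [Finsupp.single_apply, hxy, hq]
      · simp [Finsupp.single_apply, Ne.symm hkx, Ne.symm hky, hzero k hkx hky]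
  interval_cases c
  · left
    have hgy : g y = 0 := by rw [hcc, mul_zero]
    have hgx : g x = a y := by
      rw [hgy, mul_zero, add_zero] at hw
      exact Nat.eq_of_mul_eq_mul_left (by omega) hw
    have := hext _ _ hgx hgy
    rw [Finsupp.single_zero, add_zero] at this
    exact this
  · right
    have hgy : g y = a x := by rw [hcc, mul_one]
    have hgx : g x = 0 := by
      rw [hgy, mul_comm (a y)] at hw
      have h5 : a x * g x = 0 := by omega
      rcases Nat.mul_eq_zero.1 h5 with h6 | h6
      · omega
      · exact h6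
    have := hext _ _ hgx hgy
    rw [Finsupp.single_zero, zero_add] at this
    exact this

/-- Exchange of pure powers, modulo larger degree in the variables of weight one. -/
lemma tight_move (hxy : x ≠ y) (h1 : ∀ i, i ≠ x → i ≠ y → a i = 1)
    (hB2 : 2 ≤ a y) (hlt : a y < a x) (hc : (a y).Coprime (a x))
    (hf : IsWeightedHomogeneous a f (a x * a y))
    (hcx : coeff (Finsupp.single x (a y)) f ≠ 0) (hcy : coeff (Finsupp.single y (a x)) f ≠ 0)
    (u : ι →₀ ℕ) (hM : wt a u = l + l')
    (IH : ∀ u' : ι →₀ ℕ, wt a u' = l + l' → UU x y u < UU x y u' →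
      monomial u' (1 : K) ∈ Icap a f l l') :
    (a y ≤ u x → monomial (u - Finsupp.single x (a y) + Finsupp.single y (a x)) (1 : K) ∈
      Icap a f l l' → monomial u (1 : K) ∈ Icap a f l l') ∧
    (a x ≤ u y → monomial (u - Finsupp.single y (a x) + Finsupp.single x (a y)) (1 : K) ∈
      Icap a f l l' → monomial u (1 : K) ∈ Icap a f l l') := by
  have hUs : ∀ (z : ι) (s : ℕ) (g : ι →₀ ℕ), (z = x ∨ z = y) →
      UU x y (u - Finsupp.single z s + g : ι →₀ ℕ) = UU x y u + UU x y g := by
    intro z s g hz
    rw [← UU_add]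
    refine UU_congr fun k hkx hky => ?_
    have hkz : z ≠ k := by rcases hz with h | h <;> rw [h] <;> [exact Ne.symm hkx; exact Ne.symm hky]
    simp [Finsupp.single_apply, hkz]
  constructor
  · intro hux hmem
    refine rewriting u (Finsupp.single x (a y)) ?_ hcx ?_
    · intro k
      by_cases hk : k = x
      · subst hk; simpa using hux
      · simp [Finsupp.single_apply, Ne.symm hk]
    · intro g hg hne
      by_cases hU : UU x y g = 0
      · rcases tight_support hxy h1 hB2 hlt hc hf hg hU with h | h
        · exact absurd h hne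
        · rw [h]; exact hmem
      · refine IH _ ?_ ?_
        · rw [wt_rewrite hf hg x (a y) rfl u hux, hM]
        · rw [hUs x _ _ (Or.inl rfl)]; omega
  · intro huy hmem
    refine rewriting u (Finsupp.single y (a x)) ?_ hcy ?_
    · intro k
      by_cases hk : k = y
      · subst hk; simpa using huy
      · simp [Finsupp.single_apply, Ne.symm hk]
    · intro g hg hne
      by_cases hU : UU x y g = 0
      · rcases tight_support hxy h1 hB2 hlt hc hf hg hU with h | h
        · rw [h]; exact hmem
        · exact absurd h hne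
      · refine IH _ ?_ ?_
        · rw [wt_rewrite hf hg y (a x) (mul_comm _ _) u huy, hM]
        · rw [hUs y _ _ (Or.inr rfl)]; omega

/-- Any two monomials with the same part of weight one are equivalent. -/
lemma tight_equiv (hxy : x ≠ y) (h1 : ∀ i, i ≠ x → i ≠ y → a i = 1)
    (hB2 : 2 ≤ a y) (hlt : a y < a x) (hc : (a y).Coprime (a x))
    (hf : IsWeightedHomogeneous a f (a x * a y))
    (hcx : coeff (Finsupp.single x (a y)) f ≠ 0) (hcy : coeff (Finsupp.single y (a x)) f ≠ 0)
    (w : ι →₀ ℕ) (hMw : wt a w = l + l')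
    (IH : ∀ u' : ι →₀ ℕ, wt a u' = l + l' → UU x y w < UU x y u' →
      monomial u' (1 : K) ∈ Icap a f l l')
    (hw : monomial w (1 : K) ∈ Icap a f l l') (m : ℕ) :
    ∀ u : ι →₀ ℕ, wt a u = l + l' → (∀ k, k ≠ x → k ≠ y → u k = w k) →
      (u x = w x + a y * m ∨ w x = u x + a y * m) → monomial u (1 : K) ∈ Icap a f l l' := by
  induction m with
  | zero =>
    intro u hM hk hm
    have hux : u x = w x := by rcases hm with h | h <;> simp at h <;> omega
    have hU : UU x y u = UU x y w := UU_congr hk
    have huy : u y = w y := by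
      have h2 := wt_tight hxy h1 u
      have h3 := wt_tight hxy h1 w
      rw [hM, hux, hU] at h2
      rw [hMw] at h3
      have h4 : a y * u y = a y * w y := by omega
      exact Nat.eq_of_mul_eq_mul_left (by omega) h4
    have : u = w := by
      ext k
      by_cases hkx : k = x
      · subst hkx; exact hux
      · by_cases hky : k = y
        · subst hky; exact huy
        · exact hk k hkx hky
    rw [this]; exact hw
  | succ m ih =>
    intro u hM hk hm
    have hU : UU x y u = UU x y w := UU_congr hk
    have hmv := tight_move hxy h1 hB2 hlt hc hf hcx hcy u hM (fun u' h2 h3 =>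
      IH u' h2 (by rw [← hU]; exact h3))
    have hayx : a y * (m + 1) = a y * m + a y := by ring
    have h2 := wt_tight hxy h1 u
    have h3 := wt_tight hxy h1 w
    rcases hm with hm | hm
    · -- move from `x` to `y`
      refine hmv.1 (by omega) (ih _ ?_ ?_ ?_)
      · have hv : wt a (u - Finsupp.single x (a y) + Finsupp.single y (a x) : ι →₀ ℕ) =
          a x * (u x - a y) + (a y * (u y + a x) + UU x y u) := by
          rw [wt_tight hxy h1]
          have h4 : (u - Finsupp.single x (a y) + Finsupp.single y (a x) : ι →₀ ℕ) x =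
            u x - a y := by simp [Finsupp.single_apply, hxy.symm]
          have h5 : (u - Finsupp.single x (a y) + Finsupp.single y (a x) : ι →₀ ℕ) y =
            u y + a x := by simp [Finsupp.single_apply, hxy]
          rw [h4, h5]
          congr 2
          refine UU_congr fun k hkx hky => ?_
          simp [Finsupp.single_apply, Ne.symm hkx, Ne.symm hky]
        rw [hv]
        obtain ⟨c, hcc⟩ : ∃ c, u x = c + a y := ⟨u x - a y, by omega⟩
        rw [hcc, Nat.add_sub_cancel]
        rw [hM, hcc] at h2
        have h6 : a x * (c + a y) = a x * c + a x * a y := by ring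
        have h7 : a y * (u y + a x) = a y * u y + a x * a y := by ring
        omega
      · intro k hkx hky
        rw [← hk k hkx hky]
        simp [Finsupp.single_apply, Ne.symm hkx, Ne.symm hky]
      · left
        have h4 : (u - Finsupp.single x (a y) + Finsupp.single y (a x) : ι →₀ ℕ) x =
            u x - a y := by simp [Finsupp.single_apply, hxy.symm]
        rw [h4]; omega
    · -- move from `y` to `x`
      have huy : a x ≤ u y := by
        rw [hM, hU] at h2
        rw [hMw, hm] at h3
        have h6 : a x * (u x + a y * (m + 1)) = a x * u x + a y * (a x * (m + 1)) := by ring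
        rw [h6] at h3
        have h7 : a y * (a x * (m + 1)) ≤ a y * u y := by omega
        have h8 : a x * (m + 1) ≤ u y := Nat.le_of_mul_le_mul_left h7 (by omega)
        have h9 : a x * 1 ≤ a x * (m + 1) := Nat.mul_le_mul_left _ (by omega)
        omega
      refine hmv.2 huy (ih _ ?_ ?_ ?_)
      · have hv : wt a (u - Finsupp.single y (a x) + Finsupp.single x (a y) : ι →₀ ℕ) =
          a x * (u x + a y) + (a y * (u y - a x) + UU x y u) := by
          rw [wt_tight hxy h1]
          have h4 : (u - Finsupp.single y (a x) + Finsupp.single x (a y) : ι →₀ ℕ) x =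
            u x + a y := by simp [Finsupp.single_apply, hxy.symm]
          have h5 : (u - Finsupp.single y (a x) + Finsupp.single x (a y) : ι →₀ ℕ) y =
            u y - a x := by simp [Finsupp.single_apply, hxy]
          rw [h4, h5]
          congr 2
          refine UU_congr fun k hkx hky => ?_
          simp [Finsupp.single_apply, Ne.symm hkx, Ne.symm hky]
        rw [hv]
        obtain ⟨c, hcc⟩ : ∃ c, u y = c + a x := ⟨u y - a x, by omega⟩
        rw [hcc, Nat.add_sub_cancel]
        rw [hM, hcc] at h2
        have h6 : a x * (u x + a y) = a x * u x + a x * a y := by ring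
        have h7 : a y * (c + a x) = a y * c + a x * a y := by ring
        omega
      · intro k hkx hky
        rw [← hk k hkx hky]
        simp [Finsupp.single_apply, Ne.symm hkx, Ne.symm hky]
      · right
        have h4 : (u - Finsupp.single y (a x) + Finsupp.single x (a y) : ι →₀ ℕ) x =
            u x + a y := by simp [Finsupp.single_apply, hxy.symm]
        rw [h4]; omega

/-- The tight case. -/
lemma mainTight (hxy : x ≠ y) (h1 : ∀ i, i ≠ x → i ≠ y → a i = 1)
    (hB2 : 2 ≤ a y) (hlt : a y < a x) (hc : (a y).Coprime (a x))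
    (hf : IsWeightedHomogeneous a f (a x * a y))
    (hcx : coeff (Finsupp.single x (a y)) f ≠ 0) (hcy : coeff (Finsupp.single y (a x)) f ≠ 0)
    (hl : a x * a y ≤ l + ∑ i, (a i - 1)) (hl' : a x * a y ≤ l' + 1 + ∑ i, (a i - 1)) (n : ℕ) :
    ∀ u : ι →₀ ℕ, wt a u = l + l' → l + l' - UU x y u = n →
      monomial u (1 : K) ∈ Icap a f l l' := by
  have hA : ∀ i, a i ≤ a x := by
    intro i
    by_cases hix : i = x
    · subst hix; exact le_rfl
    · by_cases hiy : i = y
      · subst hiy; exact hlt.le
      · rw [h1 i hix hiy]; omega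
  have hsum : ∑ i, (a i - 1) = (a x - 1) + (a y - 1) := by
    rw [sum_split x y hxy (fun i => a i - 1)]
    have : ∑ i ∈ (univ.erase x).erase y, (a i - 1) = 0 := by
      refine Finset.sum_eq_zero fun k hk => ?_
      have hky : k ≠ y := Finset.ne_of_mem_erase hk
      have hkx : k ≠ x := Finset.ne_of_mem_erase (Finset.mem_of_mem_erase hk)
      simp [h1 k hkx hky]
    rw [this, add_zero]
  rw [hsum] at hl hl'
  have hprod : a x * a y = (a x - 1) * (a y - 1) + (a x - 1) + (a y - 1) + 1 := by
    obtain ⟨A', hA'⟩ : ∃ A', a x = A' + 1 := ⟨a x - 1, by omega⟩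
    obtain ⟨B', hB'⟩ : ∃ B', a y = B' + 1 := ⟨a y - 1, by omega⟩
    rw [hA', hB']; simp only [Nat.add_sub_cancel]; ring
  have hprod2 : (a x - 1) * (a y - 1) = (a x - 1) * (a y - 2) + (a x - 1) := by
    obtain ⟨B', hB'⟩ : ∃ B', a y = B' + 2 := ⟨a y - 2, by omega⟩
    rw [hB']; simp only [Nat.add_sub_cancel]
    have : B' + 2 - 1 = B' + 1 := by omega
    rw [this]; ring
  induction n using Nat.strong_induction_on with
  | _ n ih =>
  intro u hM hn
  have IH : ∀ u' : ι →₀ ℕ, wt a u' = l + l' → UU x y u < UU x y u' →
      monomial u' (1 : K) ∈ Icap a f l l' := by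
    intro u' hM' hU'
    have h2 := wt_tight hxy h1 u'
    exact ih (l + l' - UU x y u') (by omega) u' hM' rfl
  by_cases hU : a x ≤ ∑ i ∈ univ.filter (fun i => a i = 1), u i + 1
  · exact mem_of_splits u hM (splitO a u (a x) l l' (by omega) hA hU hM)
  push Not at hU
  have hfil : univ.filter (fun i => a i = 1) = (univ.erase x).erase y := by
    ext i
    simp only [mem_filter, mem_univ, true_and, mem_erase, and_true]
    constructor
    · intro h2
      exact ⟨by rintro rfl; omega, by rintro rfl; omega⟩
    · rintro ⟨hiy, hix⟩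
      exact h1 i hix hiy
  rw [hfil] at hU
  change UU x y u + 1 < a x at hU
  -- a good representative
  have hgood : ∃ (w : ι → ℕ), (∀ k, k ≠ x → k ≠ y → w k = u k) ∧ wt a w = l + l' ∧
      Splits a l w := by
    have hwt : ∀ q p : ℕ, wt a (fun k => if k = x then q else if k = y then p else u k) =
        a x * q + (a y * p + UU x y u) := by
      intro q p
      rw [wt_tight hxy h1]
      simp only [if_true, hxy.symm, if_false]
      congr 2
      exact UU_congr fun k hkx hky => by simp [hkx, hky]
    have hUU0 : ∀ (q p : ℕ), UU x y (fun k => if k = x then q else if k = y then p else 0) = 0 := by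
      intro q p
      refine Finset.sum_eq_zero fun k hk => ?_
      have hky : k ≠ y := Finset.ne_of_mem_erase hk
      have hkx : k ≠ x := Finset.ne_of_mem_erase (Finset.mem_of_mem_erase hk)
      simp [hkx, hky]
    by_cases hcase : ∃ p q, l' - UU x y u = a y * p + a x * q
    · obtain ⟨p2, q2, h2⟩ := hcase
      obtain ⟨p1, q1, h3⟩ := semi_large (a x) (a y) l (by omega) hB2 hc (by omega)
      refine ⟨fun k => if k = x then q1 + q2 else if k = y then p1 + p2 else u k, ?_, ?_, ?_⟩
      · intro k hkx hky; simp [hkx, hky]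
      · rw [hwt]
        have h4 : a x * (q1 + q2) = a x * q1 + a x * q2 := by ring
        have h5 : a y * (p1 + p2) = a y * p1 + a y * p2 := by ring
        omega
      · refine ⟨fun k => if k = x then q1 else if k = y then p1 else 0, ?_, ?_⟩
        · intro k
          by_cases hkx : k = x
          · simp [hkx]
          · by_cases hky : k = y
            · simp [hkx, hky, hxy.symm]
            · simp [hkx, hky]
        · rw [wt_tight hxy h1, hUU0]
          simp only [if_true, hxy.symm, if_false]
          omega
    · have hU1 : UU x y u ≠ 0 := by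
        intro h0
        apply hcase
        rw [h0, Nat.sub_zero]
        exact semi_large (a x) (a y) l' (by omega) hB2 hc (by omega)
      have htwo := semi_two (a x) (a y) (l' - UU x y u) hB2 hlt hc (by omega)
      rcases htwo with h | ⟨p2, q2, h2⟩
      · exact absurd h hcase
      obtain ⟨p1, q1, h3⟩ := semi_large (a x) (a y) (l - 1) (by omega) hB2 hc (by omega)
      have hexk : ∃ k, k ≠ x ∧ k ≠ y ∧ u k ≠ 0 := by
        by_contra hcon
        push Not at hcon
        apply hU1
        refine Finset.sum_eq_zero fun k hk => ?_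
        exact hcon k (Finset.ne_of_mem_erase (Finset.mem_of_mem_erase hk))
          (Finset.ne_of_mem_erase hk)
      obtain ⟨k0, hk0x, hk0y, hk0⟩ := hexk
      refine ⟨fun k => if k = x then q1 + q2 else if k = y then p1 + p2 else u k, ?_, ?_, ?_⟩
      · intro k hkx hky; simp [hkx, hky]
      · rw [hwt]
        have h4 : a x * (q1 + q2) = a x * q1 + a x * q2 := by ring
        have h5 : a y * (p1 + p2) = a y * p1 + a y * p2 := by ring
        omega
      · refine ⟨(fun k => if k = x then q1 else if k = y then p1 else 0) + Pi.single k0 1,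
          ?_, ?_⟩
        · intro k
          by_cases hkx : k = x
          · subst hkx
            simp [Pi.single_apply, Ne.symm hk0x]
          · by_cases hky : k = y
            · subst hky
              simp [hxy.symm, Pi.single_apply, Ne.symm hk0y]
            · by_cases hkk : k = k0
              · subst hkk
                simp [hkx, hky]
                omega
              · simp [hkx, hky, Pi.single_apply, hkk]
        · rw [wt_add, wt_single, wt_tight hxy h1, hUU0, h1 k0 hk0x hk0y]
          simp only [if_true, hxy.symm, if_false]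
          omega
  obtain ⟨w, hw1, hw2, hw3⟩ := hgood
  set w' : ι →₀ ℕ := Finsupp.equivFunOnFinite.symm w with hw'
  have hww : (w' : ι → ℕ) = w := by rw [hw']; rfl
  have hMw' : wt a w' = l + l' := by rw [hww, hw2]
  have hmem : monomial w' (1 : K) ∈ Icap a f l l' :=
    mem_of_splits w' hMw' (by rw [hww]; exact hw3)
  have hUw : UU x y w' = UU x y u := by
    rw [hww]; exact UU_congr hw1
  have h2 := wt_tight hxy h1 u
  have h3 := wt_tight hxy h1 w'
  rw [hM] at h2
  rw [hMw', hUw] at h3
  have hex : ∃ m, u x = w' x + a y * m ∨ w' x = u x + a y * m := by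
    rcases le_total (w' x) (u x) with h | h
    · obtain ⟨d, hd⟩ : ∃ d, u x = w' x + d := ⟨u x - w' x, by omega⟩
      have h4 : a y ∣ a x * d := by
        rw [hd] at h2
        have h5 : a x * (w' x + d) = a x * w' x + a x * d := by ring
        have h6 : a x * d + a y * u y = a y * w' y := by omega
        have h7 : a y ∣ a x * d + a y * u y := ⟨w' y, h6⟩
        exact (Nat.dvd_add_left ⟨u y, rfl⟩).1 h7
      obtain ⟨m, hm⟩ := hc.dvd_of_dvd_mul_left h4
      exact ⟨m, Or.inl (by rw [hd, hm])⟩
    · obtain ⟨d, hd⟩ : ∃ d, w' x = u x + d := ⟨w' x - u x, by omega⟩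
      have h4 : a y ∣ a x * d := by
        rw [hd] at h3
        have h5 : a x * (u x + d) = a x * u x + a x * d := by ring
        have h6 : a x * d + a y * w' y = a y * u y := by omega
        have h7 : a y ∣ a x * d + a y * w' y := ⟨u y, h6⟩
        exact (Nat.dvd_add_left ⟨w' y, rfl⟩).1 h7
      obtain ⟨m, hm⟩ := hc.dvd_of_dvd_mul_left h4
      exact ⟨m, Or.inr (by rw [hd, hm])⟩
  obtain ⟨m, hm⟩ := hex
  exact tight_equiv hxy h1 hB2 hlt hc hf hcx hcy w' hMw'
    (fun u' h5 h6 => IH u' h5 (by rw [← hUw]; exact h6)) hmem m u hM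
    (fun k hkx hky => by rw [hww]; exact (hw1 k hkx hky).symm) hm

/-- All forms of degree `l + l'`. -/
theorem mainAll (ha : ∀ i, 1 ≤ a i) (hcop : ∀ i j, i ≠ j → (a i).Coprime (a j)) {e : ℕ}
    (he : 0 < e) (hf : IsWeightedHomogeneous a f e)
    (hp : ∀ i, 2 ≤ a i → a i ∣ e ∧ coeff (Finsupp.single i (e / a i)) f ≠ 0)
    (hl : e ≤ l + ∑ i, (a i - 1)) (hl' : e ≤ l' + 1 + ∑ i, (a i - 1)) :
    weightedHomogeneousSubmodule K a (l + l') ≤ Icap a f l l' := by
  have hmono : ∀ u : ι →₀ ℕ, wt a u = l + l' → monomial u (1 : K) ∈ Icap a f l l' := by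
    intro u hM
    by_cases hne : Nonempty ι
    swap
    · rw [not_nonempty_iff] at hne
      have h0 : wt a u = 0 := by simp [wt]
      exact mem_of_splits u hM ⟨0, fun i => Nat.zero_le _, by rw [wt_zero]; omega⟩
    obtain ⟨x, -, hx⟩ := Finset.exists_max_image (univ : Finset ι) a univ_nonempty
    have hA : ∀ i, a i ≤ a x := fun i => hx i (mem_univ i)
    by_cases hone : ∀ i, i ≠ x → a i = 1
    · exact mainOne x hone (ha x) he hl hl' hf hp (u x) u rfl hM
    push Not at hone
    obtain ⟨z, hzx, hz⟩ := hone
    obtain ⟨y, hy1, hy2⟩ := Finset.exists_max_image (univ.erase x) a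
      ⟨z, Finset.mem_erase.2 ⟨hzx, mem_univ z⟩⟩
    have hyx : y ≠ x := Finset.ne_of_mem_erase hy1
    have hxy : x ≠ y := hyx.symm
    have hB : ∀ i, i ≠ x → a i ≤ a y := fun i hi => hy2 i (Finset.mem_erase.2 ⟨hi, mem_univ i⟩)
    have hB2 : 2 ≤ a y := by
      have h1 := hB z hzx
      have h2 := ha z
      omega
    have hc : (a y).Coprime (a x) := hcop y x hyx
    have hlt : a y < a x := by
      rcases (hA y).lt_or_eq with h | h
      · exact h
      · rw [h, Nat.coprime_self] at hc
        omega
    -- the product of all weights divides `e`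
    have hdvd : ∏ i, a i ∣ e := by
      refine Finset.prod_dvd_of_isRelPrime ?_ ?_
      · intro i _ j _ hij
        exact (Nat.coprime_iff_isRelPrime.1 (hcop i j hij))
      · intro i _
        by_cases h : 2 ≤ a i
        · exact (hp i h).1
        · have : a i = 1 := by have := ha i; omega
          rw [this]; exact one_dvd _
    obtain ⟨c, hcc⟩ := hdvd
    rw [← Finset.mul_prod_erase _ _ (mem_univ x), ← Finset.mul_prod_erase (univ.erase x) _ hy1]
      at hcc
    set P := ∏ i ∈ (univ.erase x).erase y, a i with hP
    have hPsum : ∀ s : Finset ι, ∑ i ∈ s, (a i - 1) + 1 ≤ ∏ i ∈ s, a i := by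
      intro s
      induction s using Finset.induction_on with
      | empty => simp
      | insert i s hi ih =>
        rw [Finset.sum_insert hi, Finset.prod_insert hi]
        obtain ⟨b, hb⟩ : ∃ b, a i = b + 1 := ⟨a i - 1, by have := ha i; omega⟩
        rw [hb, Nat.add_sub_cancel]
        have h1 : 1 ≤ ∏ i ∈ s, a i := by omega
        have h2 : b * 1 ≤ b * ∏ i ∈ s, a i := Nat.mul_le_mul_left _ h1
        have h3 : (b + 1) * ∏ i ∈ s, a i = b * ∏ i ∈ s, a i + ∏ i ∈ s, a i := by ring
        omega
    have hc1 : 1 ≤ c := by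
      rcases Nat.eq_zero_or_pos c with h0 | h0
      · rw [h0, mul_zero] at hcc; omega
      · exact h0
    have hPle : P ≤ P * c := Nat.le_mul_of_pos_right _ hc1
    have hSo : ∑ i ∈ (univ.erase x).erase y, (a i - 1) + 1 ≤ P * c := (hPsum _).trans hPle
    have heq : e = a x * a y * (P * c) := by rw [hcc]; ring
    by_cases hQ : 2 ≤ P * c
    · exact mainQ hxy ha hcop hA hB hB2 hlt hQ heq hSo hl hl' hf hp u hM
    · have hQ1 : P * c = 1 := by omega
      have hexy : e = a x * a y := by rw [heq, hQ1, mul_one]
      have h1 : ∀ i, i ≠ x → i ≠ y → a i = 1 := by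
        intro i hix hiy
        have h2 : ∑ i ∈ (univ.erase x).erase y, (a i - 1) = 0 := by omega
        have h3 := (Finset.sum_eq_zero_iff.1 h2) i
          (Finset.mem_erase.2 ⟨hiy, Finset.mem_erase.2 ⟨hix, mem_univ i⟩⟩)
        have := ha i
        omega
      have hcx := (hp x (by omega)).2
      have hcy := (hp y hB2).2
      rw [hexy, Nat.mul_div_cancel_left _ (by omega : 0 < a x)] at hcx
      rw [hexy, Nat.mul_div_cancel _ (by omega : 0 < a y)] at hcy
      rw [hexy] at hf hl hl'
      exact mainTight hxy h1 hB2 hlt hc hf hcx hcy hl hl' _ u hM rfl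
  intro p hpM
  rw [mem_weightedHomogeneousSubmodule] at hpM
  rw [p.as_sum]
  refine Submodule.sum_mem _ fun u hu => ?_
  have h1 : wt a u = l + l' := by
    rw [← weight_eq]
    exact hpM (mem_support_iff.1 hu)
  have h2 : monomial u (coeff u p) = coeff u p • monomial u (1 : K) := by
    rw [smul_monomial, smul_eq_mul, mul_one]
  rw [h2]
  exact Submodule.smul_mem _ _ (hmono u h1)

end Pool.Agent.Helper40.Muk
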